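import Pool.Agent.KS6_45.BZ.Slack

set_option autoImplicit false

namespace Pool.Agent.KS6_45.BZ
open Finset Pool.Agent.Q139.Baz

/-! Functions with positive real part. -/

/-- Taylor coefficients of `z ↦ F (c z)`. -/
lemma tc_comp (c : ℂ) (n : ℕ) : ∀ (F : ℂ → ℂ) (x : ℂ),
    iteratedDeriv n (fun z => F (c * z)) x = c ^ n * iteratedDeriv n F (c * x) := by
  induction n with
  | zero => intro F x; simp
  | succ n ih =>
    intro F x
    rw [iteratedDeriv_succ', iteratedDeriv_succ']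
    have h : deriv (fun z => F (c * z)) = fun z => c * deriv F (c * z) := by
      funext z
      rw [deriv_comp_mul_left, smul_eq_mul]
    rw [h, iteratedDeriv_const_mul_field, ih]
    ring

lemma tc_rot (c : ℂ) (F : ℂ → ℂ) (n : ℕ) : tc (fun z => F (c * z)) n = c ^ n * tc F n := by
  rw [tc, tc_comp, tc, mul_zero]
  ring

/-- equality of Taylor coefficients gives equality on the disc. -/
lemma eq_of_tc {F G : ℂ → ℂ} (hF : DifferentiableOn ℂ F (Metric.ball 0 1))
    (hG : DifferentiableOn ℂ G (Metric.ball 0 1)) (h : ∀ k, tc F k = tc G k) :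
    ∀ z ∈ Metric.ball (0 : ℂ) 1, F z = G z := by
  intro z hz
  have h1 := taylor_hasSum hF (z := z) (by simpa using hz)
  have h2 := taylor_hasSum hG (z := z) (by simpa using hz)
  have h3 : (fun k => tc F k * z ^ k) = fun k => tc G k * z ^ k := by
    funext k; rw [h]
  rw [h3] at h1
  exact h1.unique h2

lemma lim_le {c d : ℝ} {F : ℝ → ℝ} (hF : Continuous F) (hF1 : F 1 = c)
    (h : ∀ R : ℝ, 0 < R → R < 1 → F R ≤ d) : c ≤ d := by
  have hlim : Filter.Tendsto F (nhdsWithin 1 (Set.Iio 1)) (nhds (F 1)) :=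
    Filter.Tendsto.mono_left (hF.tendsto 1) nhdsWithin_le_nhds
  rw [hF1] at hlim
  apply le_of_tendsto hlim
  have h1 : Set.Ioo (0 : ℝ) 1 ∈ nhdsWithin (1 : ℝ) (Set.Iio 1) := Ioo_mem_nhdsLT one_pos
  filter_upwards [h1] with R hR
  exact h R hR.1 hR.2

section
variable {q : ℂ → ℂ}

lemma tc_le_two (hq : DifferentiableOn ℂ q (Metric.ball 0 1)) (hq0 : q 0 = 1)
    (hpos : ∀ z ∈ Metric.ball (0 : ℂ) 1, 0 < (q z).re) {k : ℕ} (hk : 1 ≤ k) :
    ‖tc q k‖ ≤ 2 := by
  refine lim_le (F := fun R : ℝ => ‖tc q k‖ * R ^ k) (by fun_prop) (by simp) ?_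
  intro R hR0 hR1
  obtain ⟨N, μ, ζ, hA, hmom⟩ := exists_atoms hq hq0 hpos hR0 hR1 k
  have h1 : ‖∑ i, (μ i : ℂ) * ζ i ^ k‖ ≤ 1 := by
    refine (norm_sum_le _ _).trans ?_
    rw [← hA.sum]
    apply Finset.sum_le_sum
    intro i _
    rw [norm_mul, norm_pow, hA.norm, one_pow, mul_one, Complex.norm_real,
      Real.norm_of_nonneg (hA.nonneg i)]
  rw [hmom k hk le_rfl, norm_div, norm_mul, norm_pow, Complex.norm_real,
    Real.norm_of_nonneg hR0.le] at h1
  simp only [Complex.norm_ofNat] at h1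
  linarith

lemma norm_pow_sub_le {a b : ℂ} (ha : ‖a‖ = 1) (hb : ‖b‖ = 1) (k : ℕ) :
    ‖a ^ k - b ^ k‖ ≤ k * ‖a - b‖ := by
  induction k with
  | zero => simp
  | succ k ih =>
    have : a ^ (k+1) - b ^ (k+1) = a ^ k * (a - b) + (a ^ k - b ^ k) * b := by ring
    rw [this]
    refine (norm_add_le _ _).trans ?_
    rw [norm_mul, norm_mul, norm_pow, ha, hb, one_pow]
    push_cast
    linarith

/-- the coefficients are close to those of a rotation of the half plane map. -/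
lemma near_rot (hq : DifferentiableOn ℂ q (Metric.ball 0 1)) (hq0 : q 0 = 1)
    (hpos : ∀ z ∈ Metric.ball (0 : ℂ) 1, 0 < (q z).re) : ∃ ζ : ℂ, ‖ζ‖ = 1 ∧
      ∀ k, 1 ≤ k → ‖tc q k - 2 * ζ ^ k‖ ≤ 2 * (k * √(2 * (1 - ‖tc q 1‖ / 2))) := by
  obtain ⟨c, hc⟩ : ∃ c, c = tc q 1 / 2 := ⟨_, rfl⟩
  have hcn : ‖tc q 1‖ / 2 = ‖c‖ := by
    rw [hc, norm_div]; simp
  obtain ⟨ξ, hξ1, hξ2⟩ : ∃ ξ : ℂ, ‖ξ‖ = 1 ∧ ((starRingEnd ℂ) ξ * c).re = ‖c‖ := by
    by_cases h0 : c = 0
    · exact ⟨1, norm_one, by rw [h0]; simp⟩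
    · have hn : ‖c‖ ≠ 0 := norm_ne_zero_iff.2 h0
      have hnC : (‖c‖ : ℂ) ≠ 0 := by exact_mod_cast hn
      refine ⟨c / ‖c‖, ?_, ?_⟩
      · rw [norm_div, Complex.norm_real, norm_norm, div_self hn]
      · have : (starRingEnd ℂ) (c / ‖c‖) * c = ((‖c‖ : ℝ) : ℂ) := by
          rw [map_div₀, Complex.conj_ofReal, div_mul_eq_mul_div, div_eq_iff hnC, mul_comm,
            Complex.mul_conj, Complex.normSq_eq_norm_sq]
          push_cast; ring
        rw [this, Complex.ofReal_re]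
  refine ⟨ξ, hξ1, ?_⟩
  intro k hk
  rw [hcn]
  have key : ∀ R : ℝ, 0 < R → R < 1 →
      ‖tc q k * (R : ℂ) ^ k - 2 * ξ ^ k‖ - 2 * (k * √(2 * (1 - R * ‖c‖))) ≤ 0 := by
    intro R hR0 hR1
    obtain ⟨N, μ, ζ, hA, hmom⟩ := exists_atoms hq hq0 hpos hR0 hR1 k
    have h1 := hmom 1 le_rfl hk
    have h2 := hmom k hk le_rfl
    simp only [pow_one] at h1
    have hsC : ∑ i, (μ i : ℂ) = 1 := by exact_mod_cast hA.sum
    have h3 : ∑ i, (μ i : ℂ) * (ζ i ^ k - ξ ^ k) = (tc q k * (R : ℂ) ^ k - 2 * ξ ^ k) / 2 := by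
      simp only [mul_sub, Finset.sum_sub_distrib]
      rw [h2, ← Finset.sum_mul, hsC]; ring
    have h4 : ‖∑ i, (μ i : ℂ) * (ζ i ^ k - ξ ^ k)‖ ≤ k * ∑ i, μ i * ‖ζ i - ξ‖ := by
      refine (norm_sum_le _ _).trans ?_
      rw [Finset.mul_sum]
      apply Finset.sum_le_sum
      intro i _
      rw [norm_mul, Complex.norm_real, Real.norm_of_nonneg (hA.nonneg i)]
      calc μ i * ‖ζ i ^ k - ξ ^ k‖ ≤ μ i * (k * ‖ζ i - ξ‖) :=
            mul_le_mul_of_nonneg_left (norm_pow_sub_le (hA.norm i) hξ1 k) (hA.nonneg i)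
        _ = _ := by ring
    have h5 : (∑ i, μ i * ‖ζ i - ξ‖) ^ 2 ≤ (∑ i, μ i) * ∑ i, μ i * ‖ζ i - ξ‖ ^ 2 := by
      apply Finset.sum_sq_le_sum_mul_sum_of_sq_le_mul
      · intro i _; exact hA.nonneg i
      · intro i _; exact mul_nonneg (hA.nonneg i) (sq_nonneg _)
      · intro i _; exact le_of_eq (by ring)
    have h6 : ∑ i, μ i * ‖ζ i - ξ‖ ^ 2 = 2 * (1 - R * ‖c‖) := by
      have e : ∀ i, μ i * ‖ζ i - ξ‖ ^ 2 =
          2 * μ i - 2 * ((starRingEnd ℂ) ξ * ((μ i : ℂ) * ζ i)).re := by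
        intro i
        have ha : (ζ i).re * (ζ i).re + (ζ i).im * (ζ i).im = 1 := by
          rw [← Complex.normSq_apply, Complex.normSq_eq_norm_sq, hA.norm]; norm_num
        have hb : ξ.re * ξ.re + ξ.im * ξ.im = 1 := by
          rw [← Complex.normSq_apply, Complex.normSq_eq_norm_sq, hξ1]; norm_num
        rw [Complex.sq_norm, Complex.normSq_apply]
        simp only [Complex.sub_re, Complex.sub_im, Complex.mul_re, Complex.conj_re,
          Complex.conj_im, Complex.ofReal_re, Complex.ofReal_im, Complex.mul_im]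
        linear_combination μ i * ha + μ i * hb
      rw [Finset.sum_congr rfl (fun i _ => e i), Finset.sum_sub_distrib, ← Finset.mul_sum,
        ← Finset.mul_sum, ← Complex.re_sum, ← Finset.mul_sum, h1, hA.sum]
      have : (starRingEnd ℂ) ξ * (tc q 1 * (R : ℂ) / 2) = (R : ℂ) * ((starRingEnd ℂ) ξ * c) := by
        rw [hc]; ring
      rw [this, Complex.re_ofReal_mul, hξ2]
      ring
    rw [hA.sum, one_mul, h6] at h5
    have h7 : ∑ i, μ i * ‖ζ i - ξ‖ ≤ √(2 * (1 - R * ‖c‖)) := Real.le_sqrt_of_sq_le h5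
    rw [h3, norm_div] at h4
    simp only [Complex.norm_ofNat] at h4
    have h8 : (k : ℝ) * ∑ i, μ i * ‖ζ i - ξ‖ ≤ k * √(2 * (1 - R * ‖c‖)) :=
      mul_le_mul_of_nonneg_left h7 (Nat.cast_nonneg k)
    linarith
  have := lim_le (c := ‖tc q k - 2 * ξ ^ k‖ - 2 * (k * √(2 * (1 - ‖c‖)))) (F := fun R : ℝ =>
    ‖tc q k * (R : ℂ) ^ k - 2 * ξ ^ k‖ - 2 * (k * √(2 * (1 - R * ‖c‖))))
    (by fun_prop) (by simp) key
  linarith

/-- the half plane map -/
lemma half_diff {ζ : ℂ} (hζ : ‖ζ‖ = 1) :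
    DifferentiableOn ℂ (fun z => (1 + ζ * z) / (1 - ζ * z)) (Metric.ball 0 1) := by
  apply DifferentiableOn.div
  · fun_prop
  · fun_prop
  · intro z hz h
    rw [mem_ball_zero_iff] at hz
    have : ζ * z = 1 := by linear_combination -h
    have h2 := congrArg norm this
    rw [norm_mul, hζ, one_mul, norm_one] at h2
    linarith

lemma tc_half {k : ℕ} (hk : 1 ≤ k) : tc (fun z => (1 + z) / (1 - z)) k = 2 := by
  have hd : DifferentiableOn ℂ (fun z : ℂ => (1 + z) / (1 - z)) (Metric.ball 0 1) := by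
    have := half_diff (ζ := 1) norm_one
    simpa using this
  have h := ts_koebe hd (fun z _ => rfl)
  have h2 := congrArg (PowerSeries.coeff k) h
  rw [coeff_ts, coeff_koebe k hk] at h2
  exact h2

/-- pointwise version of `near_rot`. -/
lemma near_rot_fun (hq : DifferentiableOn ℂ q (Metric.ball 0 1)) (hq0 : q 0 = 1) {ζ : ℂ}
    (hζ : ‖ζ‖ = 1) {s : ℝ}
    (h : ∀ k, 1 ≤ k → ‖tc q k - 2 * ζ ^ k‖ ≤ 2 * (k * s)) {z : ℂ}
    (hz : z ∈ Metric.ball (0 : ℂ) 1) :
    ‖q z - (1 + ζ * z) / (1 - ζ * z)‖ ≤ 2 * s / (1 - ‖z‖) ^ 2 := by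
  have hz1 : ‖z‖ < 1 := by simpa using hz
  have hs : 0 ≤ s := by
    have := (norm_nonneg _).trans (h 1 le_rfl)
    push_cast at this
    linarith
  have hζz : ‖ζ * z‖ < 1 := by rw [norm_mul, hζ, one_mul]; exact hz1
  have hd : DifferentiableOn ℂ (fun z : ℂ => (1 + z) / (1 - z)) (Metric.ball 0 1) := by
    have := half_diff (ζ := 1) norm_one
    simpa using this
  have h1 := taylor_hasSum hq hz1
  have h2 := taylor_hasSum hd hζz
  have h3 := h1.sub h2
  have h4 : HasSum (fun k : ℕ => 2 * s * ((k : ℝ) * ‖z‖ ^ k)) (2 * s * (‖z‖ / (1 - ‖z‖) ^ 2)) := by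
    apply HasSum.mul_left
    apply hasSum_coe_mul_geometric_of_norm_lt_one
    simpa using hz1
  have h5 : ‖q z - (1 + ζ * z) / (1 - ζ * z)‖ ≤ 2 * s * (‖z‖ / (1 - ‖z‖) ^ 2) := by
    have h6 : q z - (1 + ζ * z) / (1 - ζ * z) = ∑' k, (tc q k * z ^ k -
        tc (fun z => (1 + z) / (1 - z)) k * (ζ * z) ^ k) := h3.tsum_eq.symm
    rw [h6]
    apply tsum_of_norm_bounded h4
    intro k
    rcases Nat.eq_zero_or_pos k with rfl | hk
    · simp [tc_zero, hq0]
    · rw [tc_half hk, mul_pow]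
      have : tc q k * z ^ k - 2 * (ζ ^ k * z ^ k) = (tc q k - 2 * ζ ^ k) * z ^ k := by ring
      rw [this, norm_mul, norm_pow]
      calc ‖tc q k - 2 * ζ ^ k‖ * ‖z‖ ^ k ≤ 2 * (k * s) * ‖z‖ ^ k :=
            mul_le_mul_of_nonneg_right (h k hk) (by positivity)
        _ = _ := by ring
  refine h5.trans ?_
  rw [← mul_div_assoc]
  apply div_le_div_of_nonneg_right _ (sq_nonneg _)
  nlinarith

/-- every function with positive real part comes from a function of the class. -/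
theorem exists_fl {a : ℝ} (ha : 0 < a) (hq : DifferentiableOn ℂ q (Metric.ball 0 1))
    (hq0 : q 0 = 1) (hpos : ∀ z ∈ Metric.ball (0 : ℂ) 1, 0 < (q z).re) : ∃ f l : ℂ → ℂ,
      LogBranch f l ∧ ∀ z ∈ Metric.ball (0 : ℂ) 1,
        Complex.exp (((a : ℂ) - 1) * l z) * deriv f z = q z := by
  have haC : (a : ℂ) ≠ 0 := by exact_mod_cast ha.ne'
  obtain ⟨H, hHd, hHc⟩ := exists_analytic (fun k => ((a / (k + a) : ℝ) : ℂ) * tc q k) (by
    intro k
    have h1 : 0 ≤ a / ((k : ℝ) + a) := by positivity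
    have h2 : a / ((k : ℝ) + a) ≤ 1 := by
      rw [div_le_one (by positivity)]
      have : (0 : ℝ) ≤ k := Nat.cast_nonneg k
      linarith
    rw [norm_mul, Complex.norm_real, Real.norm_of_nonneg h1]
    have h3 : ‖tc q k‖ ≤ 2 := by
      rcases Nat.eq_zero_or_pos k with rfl | hk
      · rw [tc_zero, hq0, norm_one]; norm_num
      · exact tc_le_two hq hq0 hpos hk
    nlinarith [norm_nonneg (tc q k)])
  have hH0 : H 0 = 1 := by
    rw [← tc_zero H, hHc, tc_zero, hq0]
    push_cast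
    rw [zero_add, div_self haC, one_mul]
  have hHder : ∀ z ∈ Metric.ball (0 : ℂ) 1, HasDerivAt H (deriv H z) z := fun z hz =>
    (hHd.differentiableAt (Metric.isOpen_ball.mem_nhds hz)).hasDerivAt
  -- the differential equation for `H`
  have hode : ∀ z ∈ Metric.ball (0 : ℂ) 1,
      H z + ((1 / a : ℝ) : ℂ) * (z * deriv H z) = q z := by
    have hHa : AnalyticAt ℂ H 0 := anal hHd zero_mem
    have hzH : AnalyticAt ℂ (fun z : ℂ => z * deriv H z) 0 := analyticAt_id.mul hHa.deriv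
    have hm : AnalyticAt ℂ (fun z : ℂ => ((1 / a : ℝ) : ℂ) * (z * deriv H z)) 0 :=
      analyticAt_const.mul hzH
    apply eq_of_tc _ hq
    · intro k
      rw [← coeff_ts, ts_add hHa hm, ts_const_mul hzH, ← D_ts hHa, map_add,
        PowerSeries.coeff_C_mul, coeff_D, coeff_ts, hHc]
      have hk : (k : ℂ) + a ≠ 0 := by
        have : (0 : ℝ) < k + a := by positivity
        exact_mod_cast this.ne'
      push_cast
      field_simp
      ring
    · have h1 : DifferentiableOn ℂ (deriv H) (Metric.ball 0 1) := hHd.deriv Metric.isOpen_ball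
      exact hHd.add ((differentiableOn_id.mul h1).const_mul _)
  -- positivity
  have hHpos : ∀ z ∈ Metric.ball (0 : ℂ) 1, 0 < (H z).re := by
    intro z hz
    have hz1 : ‖z‖ < 1 := by simpa using hz
    have hmem : ∀ r : ℝ, 0 ≤ r → r ≤ 1 → (r : ℂ) * z ∈ Metric.ball (0 : ℂ) 1 := by
      intro r h0 h1
      rw [mem_ball_zero_iff, norm_mul, Complex.norm_real, Real.norm_of_nonneg h0]
      nlinarith [norm_nonneg z]
    have hc : ContinuousOn (fun r : ℝ => r ^ a * (H (r * z)).re) (Set.Icc 0 1) := by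
      apply ContinuousOn.mul
      · intro r _
        exact (Real.continuousAt_rpow_const r a (Or.inr ha.le)).continuousWithinAt
      · apply Complex.continuous_re.comp_continuousOn
        apply hHd.continuousOn.comp (by fun_prop)
        intro r hr
        exact hmem r hr.1 hr.2
    have hd : ∀ r ∈ interior (Set.Icc (0 : ℝ) 1),
        0 < deriv (fun r : ℝ => r ^ a * (H (r * z)).re) r := by
      intro r hr
      rw [interior_Icc] at hr
      have hr0 : 0 < r := hr.1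
      have hm := hmem r hr0.le hr.2.le
      have h1 : HasDerivAt (fun r : ℝ => r ^ a) (a * r ^ (a - 1)) r :=
        Real.hasDerivAt_rpow_const (Or.inl hr0.ne')
      have h2 : HasDerivAt (fun r : ℝ => ((r : ℂ) * z)) z r := by
        have := (Complex.ofRealCLM.hasDerivAt (x := r)).mul_const z
        simpa using this
      have h3 : HasDerivAt (fun r : ℝ => H (r * z)) (deriv H (r * z) * z) r :=
        (hHder _ hm).comp r h2
      have h4 : HasDerivAt (fun r : ℝ => (H (r * z)).re) (deriv H (r * z) * z).re r := by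
        exact Complex.reCLM.hasFDerivAt.comp_hasDerivAt r h3
      have h5 : HasDerivAt (fun r : ℝ => r ^ a * (H (r * z)).re)
          (a * r ^ (a - 1) * (H (r * z)).re + r ^ a * (deriv H (r * z) * z).re) r := h1.mul h4
      rw [h5.deriv]
      have h6 := congrArg Complex.re (hode _ hm)
      have h7 := hpos _ hm
      have e : r ^ a = r ^ (a - 1) * r := by
        rw [← Real.rpow_add_one hr0.ne']; congr 1; ring
      have e2 : (r : ℂ) * z * deriv H (r * z) = (r : ℂ) * (deriv H (r * z) * z) := by ring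
      rw [Complex.add_re, Complex.re_ofReal_mul, e2, Complex.re_ofReal_mul] at h6
      have h8 : a * r ^ (a - 1) * (H (r * z)).re + r ^ a * (deriv H (r * z) * z).re =
          a * r ^ (a - 1) * (q (r * z)).re := by
        rw [e, ← h6]
        field_simp
      rw [h8]
      have : 0 < r ^ (a - 1) := Real.rpow_pos_of_pos hr0 _
      positivity
    have hmono := strictMonoOn_of_deriv_pos (convex_Icc (0 : ℝ) 1) hc hd
    have := hmono (Set.left_mem_Icc.2 zero_le_one) (Set.right_mem_Icc.2 zero_le_one) one_pos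
    simpa [Real.zero_rpow ha.ne'] using this
  obtain ⟨l, hl⟩ : ∃ l : ℂ → ℂ, l = fun z => (1 / (a : ℂ)) * Complex.log (H z) := ⟨_, rfl⟩
  have hlexp : ∀ z ∈ Metric.ball (0 : ℂ) 1, Complex.exp (a * l z) = H z := by
    intro z hz
    rw [hl]
    simp only
    have hne : H z ≠ 0 := by
      intro h
      have := hHpos z hz
      rw [h] at this
      simp at this
    rw [← mul_assoc, mul_one_div_cancel haC, one_mul, Complex.exp_log hne]
  have hld : DifferentiableOn ℂ l (Metric.ball 0 1) := by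
    rw [hl]
    apply DifferentiableOn.const_mul
    exact hHd.clog (fun z hz => Or.inl (hHpos z hz))
  have hl0 : l 0 = 0 := by rw [hl]; simp [hH0]
  have hLB : LogBranch (fun z => z * Complex.exp (l z)) l := ⟨hld, hl0, fun z _ => rfl⟩
  refine ⟨fun z => z * Complex.exp (l z), l, hLB, ?_⟩
  intro z hz
  rw [p_eq hLB a ha.ne' hz, hlexp z hz, ← hode z hz]
  have : (fun w => Complex.exp (a * l w)) =ᶠ[nhds z] H := by
    filter_upwards [Metric.isOpen_ball.mem_nhds hz] with w hw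
    exact hlexp w hw
  rw [this.deriv_eq]

end

end Pool.Agent.KS6_45.BZ
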