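import Pool.Agent.KS6_45.BZ.Cara

set_option autoImplicit false

namespace Pool.Agent.KS6_45.BZ
open Finset Pool.Agent.Q139.Baz
open PowerSeries (coeff rescale constantCoeff coeff_zero_eq_constantCoeff_apply coeff_rescale)

section
variable {f l : ℂ → ℂ}

/-- `(f(z)/z)^(α-1) f'(z)` -/
noncomputable def bz (a : ℝ) (f l : ℂ → ℂ) (z : ℂ) : ℂ :=
  Complex.exp (((a : ℂ) - 1) * l z) * deriv f z

/-- `q = (p - β)/(1 - β)`. -/
noncomputable def nq (a β : ℝ) (f l : ℂ → ℂ) (z : ℂ) : ℂ :=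
  ((1 / (1 - β) : ℝ) : ℂ) * (bz a f l z + ((-β : ℝ) : ℂ))

lemma bz_zero (h : LogBranch f l) (a : ℝ) : bz a f l 0 = 1 := by
  rw [bz, deriv_f h zero_mem, h.2.1]; simp

lemma bz_diff (h : LogBranch f l) (a : ℝ) : DifferentiableOn ℂ (bz a f l) (Metric.ball 0 1) :=
  p_diff h a

lemma nq_diff (h : LogBranch f l) (a β : ℝ) :
    DifferentiableOn ℂ (nq a β f l) (Metric.ball 0 1) :=
  ((bz_diff h a).add_const _).const_mul _

lemma nq_zero (h : LogBranch f l) (a : ℝ) {β : ℝ} (hβ : β < 1) : nq a β f l 0 = 1 := by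
  have hb : (1 : ℂ) - β ≠ 0 := by
    have : (1 : ℝ) - β ≠ 0 := by linarith
    exact_mod_cast this
  rw [nq, bz_zero h]
  push_cast
  field_simp
  ring

lemma nq_pos {a β : ℝ} (hβ : β < 1)
    (hpos : ∀ z ∈ Metric.ball (0 : ℂ) 1, β < (bz a f l z).re) :
    ∀ z ∈ Metric.ball (0 : ℂ) 1, 0 < (nq a β f l z).re := by
  intro z hz
  rw [nq, Complex.re_ofReal_mul, Complex.add_re, Complex.ofReal_re]
  have h1 := hpos z hz
  have h2 : 0 < 1 / (1 - β) := by
    apply div_pos one_pos; linarith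
  exact mul_pos h2 (by linarith)

lemma bz_eq_nq (a : ℝ) {β : ℝ} (hβ : β < 1) (z : ℂ) :
    bz a f l z = ((1 - β : ℝ) : ℂ) * nq a β f l z + ((β : ℝ) : ℂ) := by
  have hb : (1 : ℂ) - β ≠ 0 := by
    have : (1 : ℝ) - β ≠ 0 := by linarith
    exact_mod_cast this
  rw [nq]
  push_cast
  field_simp
  ring

lemma tc_bz (h : LogBranch f l) (a : ℝ) {β : ℝ} (hβ : β < 1) {k : ℕ} (hk : 1 ≤ k) :
    tc (bz a f l) k = ((1 - β : ℝ) : ℂ) * tc (nq a β f l) k := by
  have hqa : AnalyticAt ℂ (nq a β f l) 0 := anal (nq_diff h a β) zero_mem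
  have e : ts (bz a f l) = ts (fun z => ((1 - β : ℝ) : ℂ) * nq a β f l z + ((β : ℝ) : ℂ)) := by
    congr 1
    funext z
    exact bz_eq_nq a hβ z
  have e2 := congrArg (coeff k) e
  have hma : AnalyticAt ℂ (fun z => ((1 - β : ℝ) : ℂ) * nq a β f l z) 0 := analyticAt_const.mul hqa
  have hca : AnalyticAt ℂ (fun _ : ℂ => ((β : ℝ) : ℂ)) 0 := analyticAt_const
  rw [ts_add hma hca, ts_const_mul hqa, map_add,
    PowerSeries.coeff_C_mul, coeff_ts, coeff_ts, coeff_ts] at e2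
  rw [e2]
  have : tc (fun _ : ℂ => ((β : ℝ) : ℂ)) k = 0 := by
    rw [tc, iteratedDeriv_const, if_neg (by omega)]; simp
  rw [this, add_zero]

/-- the coefficients of `(f(z)/z)^α`. -/
lemma coeff_Hq (h : LogBranch f l) {a β : ℝ} (ha : 0 < a) (hβ : β < 1) {k : ℕ} (hk : 1 ≤ k) :
    tc (fun z => Complex.exp (a * l z)) k =
      ((coeff k (2 * Tab a β - 1) : ℝ) : ℂ) * (tc (nq a β f l) k / 2) := by
  have h1 := coeff_H h ha k
  have h2 : tc (bz a f l) k = ((1 - β : ℝ) : ℂ) * tc (nq a β f l) k := tc_bz h a hβ hk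
  rw [h1]
  change _ * tc (bz a f l) k = _
  rw [h2, coeff_Gab a β hk]
  push_cast
  ring

lemma pow_series (h : LogBranch f l) {a : ℝ} (ha : 0 < a) (b : ℝ) :
    ts (fun z => Complex.exp (b * l z)) =
      pw ((b / a : ℝ) : ℂ) (ts (fun z => Complex.exp (a * l z))) := by
  have hH0 : constantCoeff (ts (fun z => Complex.exp (a * l z))) = 1 := by
    rw [constantCoeff_ts, h.2.1]; simp
  exact IsPow.unique hH0 (isPow_exp h ha.ne' b) (isPow_pw _ hH0)

/-- transfer from finitely many atoms to functions. -/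
lemma transfer (h : LogBranch f l) {a β b : ℝ} (ha : 0 < a) (hβ1 : β < 1)
    (hpos : ∀ z ∈ Metric.ball (0 : ℂ) 1, β < (bz a f l z).re) (m : ℕ) (hm : 1 ≤ m) (κ : ℝ)
    (hbd : ∀ (N : ℕ) (μ : Fin N → ℝ) (ζ : Fin N → ℂ), Atoms μ ζ →
      ‖coeff m (pw ((b / a : ℝ) : ℂ) (Hs μ ζ (2 * Tab a β - 1)))‖ + κ * (1 - ‖mom μ ζ‖) ≤
        coeff m (pw (b / a) (2 * Tab a β - 1))) :
    ‖tc (fun z => Complex.exp (b * l z)) m‖ + κ * (1 - ‖tc (nq a β f l) 1‖ / 2) ≤
      coeff m (pw (b / a) (2 * Tab a β - 1)) := by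
  have hqd := nq_diff h a β
  have hq0 := nq_zero h a hβ1
  have hqp := nq_pos hβ1 hpos
  have hG0 := const_Gab a β
  obtain ⟨H, hH⟩ : ∃ H, H = ts (fun z => Complex.exp (a * l z)) := ⟨_, rfl⟩
  have hH0 : constantCoeff H = 1 := by rw [hH, constantCoeff_ts, h.2.1]; simp
  have hF := pow_series h ha b
  rw [← hH] at hF
  refine lim_le (F := fun R : ℝ => ‖tc (fun z => Complex.exp (b * l z)) m‖ * R ^ m +
    κ * (1 - ‖tc (nq a β f l) 1‖ * R / 2)) (by fun_prop) (by simp) ?_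
  intro R hR0 hR1
  obtain ⟨N, μ, ζ, hA, hmom⟩ := exists_atoms hqd hq0 hqp hR0 hR1 m
  have hb := hbd N μ ζ hA
  have e1 : coeff m (pw ((b / a : ℝ) : ℂ) (Hs μ ζ (2 * Tab a β - 1))) =
      coeff m (pw ((b / a : ℝ) : ℂ) (rescale (R : ℂ) H)) := by
    apply coeff_pw_congr _ (Hs0 hA hG0) (by rw [constantCoeff_rescale, hH0])
    intro k hk
    rcases Nat.eq_zero_or_pos k with rfl | hk0
    · rw [coeff_zero_eq_constantCoeff_apply, coeff_zero_eq_constantCoeff_apply,
        constantCoeff_rescale, hH0, Hs0 hA hG0]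
    · rw [coeff_Hs, hmom k hk0 hk, coeff_rescale, hH, coeff_ts, coeff_Hq h ha hβ1 hk0]
      ring
  have e2 : ‖mom μ ζ‖ = ‖tc (nq a β f l) 1‖ * R / 2 := by
    have := hmom 1 le_rfl hm
    simp only [pow_one] at this
    rw [mom, this, norm_div, norm_mul, Complex.norm_real, Real.norm_of_nonneg hR0.le]
    simp
  rw [e1, pw_rescale _ _ hH0, coeff_rescale, ← hF, coeff_ts, norm_mul, norm_pow,
    Complex.norm_real, Real.norm_of_nonneg hR0.le, e2] at hb
  linarith

/-- The main bound with the stability term. -/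
theorem main_slack {a β b : ℝ} (ha : 0 < a) (hβ0 : 0 ≤ β) (hβ1 : β < 1)
    (hab : (1 - 2 * β) * a ≤ 1) (hb : a < b) (m : ℕ) (hm : 1 ≤ m) : ∃ κ : ℝ, 0 < κ ∧
      ∀ f l : ℂ → ℂ, LogBranch f l → (∀ z ∈ Metric.ball (0 : ℂ) 1, β < (bz a f l z).re) →
        ‖tc (fun z => Complex.exp (b * l z)) m‖ + κ * (1 - ‖tc (nq a β f l) 1‖ / 2) ≤
          coeff m (pw (b / a) (2 * Tab a β - 1)) := by
  have hg := good_ab ha hβ0 hβ1 hab
  have hδ : 1 < b / a := by rw [lt_div_iff₀ ha]; linarith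
  obtain ⟨k, γ, hγ0, hγ1, hδe⟩ := exp_split hδ
  refine ⟨Kap (Tab a β) γ m, Kap_pos ha hβ0 hβ1 hab hγ0 m, ?_⟩
  intro f l h hpos
  apply transfer h ha hβ1 hpos m hm
  intro N μ ζ hA
  rw [hδe]
  exact bound_nat_slack hg hA hγ0 hγ1 k hm

/-- the bound for the exponent `α`. -/
theorem main_eq {a β : ℝ} (ha : 0 < a) (hβ0 : 0 ≤ β) (hβ1 : β < 1)
    (hab : (1 - 2 * β) * a ≤ 1) (h : LogBranch f l)
    (hpos : ∀ z ∈ Metric.ball (0 : ℂ) 1, β < (bz a f l z).re) (m : ℕ) (hm : 1 ≤ m) :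
    ‖tc (fun z => Complex.exp (a * l z)) m‖ ≤ coeff m (pw (a / a) (2 * Tab a β - 1)) := by
  have hg := good_ab ha hβ0 hβ1 hab
  have h2 := transfer (b := a) h ha hβ1 hpos m hm 0 (by
    intro N μ ζ hA
    rw [div_self ha.ne', zero_mul, add_zero, Complex.ofReal_one, pw_one (Hs0 hA hg.G0),
      pw_one hg.G0]
    have := hg.pw_nn (γ := 1) zero_le_one
    rw [pw_one hg.G0] at this
    exact norm_coeff_Hs hA this m)
  simpa using h2

/-- coefficients of powers of the extremal function. -/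
theorem extremal_coeff (h : LogBranch f l) {a β : ℝ} (ha : 0 < a) (hβ1 : β < 1)
    (hext : ∀ z ∈ Metric.ball (0 : ℂ) 1, bz a f l z = (1 + (1 - 2 * β) * z) / (1 - z)) (b : ℝ)
    (m : ℕ) : tc (fun z => Complex.exp (b * l z)) m =
      ((coeff m (pw (b / a) (2 * Tab a β - 1)) : ℝ) : ℂ) := by
  have hG0 := const_Gab a β
  have hq : ∀ z ∈ Metric.ball (0 : ℂ) 1, nq a β f l z = (1 + z) / (1 - z) := by
    intro z hz
    rw [nq, hext z hz]
    have hb : (1 : ℂ) - β ≠ 0 := by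
      have : (1 : ℝ) - β ≠ 0 := by linarith
      exact_mod_cast this
    have h1 : (1 : ℂ) - z ≠ 0 := by
      intro h0
      rw [mem_ball_zero_iff] at hz
      have : z = 1 := by linear_combination -h0
      rw [this, norm_one] at hz
      exact lt_irrefl _ hz
    push_cast
    field_simp
    ring
  have h1 := ts_koebe (nq_diff h a β) hq
  have hH : ts (fun z => Complex.exp (a * l z)) = cx (2 * Tab a β - 1) := by
    ext k
    rw [coeff_ts, coeff_cx]
    rcases Nat.eq_zero_or_pos k with rfl | hk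
    · rw [tc_zero, h.2.1, coeff_zero_eq_constantCoeff_apply, hG0]; simp
    · rw [coeff_Hq h ha hβ1 hk]
      have h2 := congrArg (coeff k) h1
      rw [coeff_ts, coeff_koebe k hk] at h2
      rw [h2]; ring
  have h0 : constantCoeff (cx (2 * Tab a β - 1)) = 1 := by rw [constantCoeff_cx, hG0]; simp
  rw [← coeff_ts, pow_series h ha b, hH, pw_cx _ hG0, coeff_cx]

/-- `l` is determined by `f`. -/
lemma branch_unique {F l₁ l₂ : ℂ → ℂ} (h1 : LogBranch F l₁) (h2 : LogBranch F l₂) :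
    ∀ z ∈ Metric.ball (0 : ℂ) 1, l₁ z = l₂ z := by
  have hexp : ∀ z ∈ Metric.ball (0 : ℂ) 1, Complex.exp (l₁ z) = Complex.exp (l₂ z) := by
    intro z hz
    by_cases hz0 : z = 0
    · rw [hz0, h1.2.1, h2.2.1]
    · have := (h1.2.2 z hz).symm.trans (h2.2.2 z hz)
      exact mul_left_cancel₀ hz0 this
  have hd1 : ∀ z ∈ Metric.ball (0 : ℂ) 1, HasDerivAt l₁ (deriv l₁ z) z := fun z hz =>
    (anal h1.1 hz).differentiableAt.hasDerivAt
  have hd2 : ∀ z ∈ Metric.ball (0 : ℂ) 1, HasDerivAt l₂ (deriv l₂ z) z := fun z hz =>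
    (anal h2.1 hz).differentiableAt.hasDerivAt
  have hd : ∀ z ∈ Metric.ball (0 : ℂ) 1, HasDerivAt (fun w => l₁ w - l₂ w) 0 z := by
    intro z hz
    have e1 := (hd1 z hz).cexp
    have e2 := (hd2 z hz).cexp
    have e3 : (fun w => Complex.exp (l₁ w)) =ᶠ[nhds z] fun w => Complex.exp (l₂ w) := by
      filter_upwards [Metric.isOpen_ball.mem_nhds hz] with w hw
      exact hexp w hw
    have e4 := (e1.congr_of_eventuallyEq e3.symm).unique e2
    rw [hexp z hz] at e4
    have e5 : deriv l₁ z = deriv l₂ z := mul_left_cancel₀ (Complex.exp_ne_zero _) e4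
    have := (hd1 z hz).sub (hd2 z hz)
    rw [e5, sub_self] at this
    exact this
  intro z hz
  have h3 : (fun w => l₁ w - l₂ w) z = (fun w => l₁ w - l₂ w) 0 := by
    apply Metric.isOpen_ball.is_const_of_deriv_eq_zero (convex_ball (0 : ℂ) 1).isPreconnected
      (fun w hw => (hd w hw).differentiableAt.differentiableWithinAt)
      (fun w hw => (hd w hw).deriv) hz zero_mem
  simp only [h1.2.1, h2.2.1, sub_zero] at h3
  exact sub_eq_zero.1 h3

lemma rot_mem {ζ z : ℂ} (hζ : ‖ζ‖ = 1) (hz : z ∈ Metric.ball (0 : ℂ) 1) :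
    ζ * z ∈ Metric.ball (0 : ℂ) 1 := by
  rw [mem_ball_zero_iff] at hz ⊢
  rw [norm_mul, hζ, one_mul]; exact hz

lemma rot_branch {F l : ℂ → ℂ} (h : LogBranch F l) {ζ : ℂ} (hζ : ‖ζ‖ = 1) :
    LogBranch (fun z => ζ⁻¹ * F (ζ * z)) (fun z => l (ζ * z)) := by
  have hζ0 : ζ ≠ 0 := by intro h0; rw [h0, norm_zero] at hζ; exact zero_ne_one hζ
  refine ⟨?_, ?_, ?_⟩
  · exact h.1.comp (by fun_prop) (fun z hz => rot_mem hζ hz)
  · simp [h.2.1]
  · intro z hz
    simp only
    rw [h.2.2 _ (rot_mem hζ hz)]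
    field_simp

/-- If `f` is a rotation of `g`, the coefficients of the powers have the same modulus. -/
lemma rot_coeff {F G l₁ l₂ : ℂ → ℂ} (h1 : LogBranch F l₁) (h2 : LogBranch G l₂) {ζ : ℂ}
    (hζ : ‖ζ‖ = 1) (hF : ∀ z ∈ Metric.ball (0 : ℂ) 1, F z = ζ⁻¹ * G (ζ * z)) (b : ℝ) (m : ℕ) :
    tc (fun z => Complex.exp (b * l₁ z)) m = ζ ^ m * tc (fun z => Complex.exp (b * l₂ z)) m := by
  have h3 : LogBranch F (fun z => l₂ (ζ * z)) := by
    have := rot_branch h2 hζ
    refine ⟨this.1, this.2.1, ?_⟩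
    intro z hz
    rw [hF z hz]
    exact this.2.2 z hz
  have h4 := branch_unique h1 h3
  rw [← tc_rot, ← coeff_ts, ← coeff_ts]
  congr 1
  apply ts_congr
  filter_upwards [ball_nhds] with z hz
  rw [h4 z hz]

/-- If the coefficients of `nq` are those of a rotation of the half plane map, then `f` is a
rotation of the extremal function. -/
lemma rot_of_tc {g lg : ℂ → ℂ} {a β : ℝ} (ha : 0 < a) (hβ1 : β < 1) (h : LogBranch f l)
    (hgb : LogBranch g lg)
    (hext : ∀ z ∈ Metric.ball (0 : ℂ) 1, bz a g lg z = (1 + (1 - 2 * β) * z) / (1 - z)) {ζ : ℂ}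
    (hζ : ‖ζ‖ = 1) (hq : ∀ k, 1 ≤ k → tc (nq a β f l) k = 2 * ζ ^ k) :
    ∀ z ∈ Metric.ball (0 : ℂ) 1, f z = ζ⁻¹ * g (ζ * z) := by
  have hζ0 : ζ ≠ 0 := by intro h0; rw [h0, norm_zero] at hζ; exact zero_ne_one hζ
  have hG0 := const_Gab a β
  have h0 : constantCoeff (cx (2 * Tab a β - 1)) = 1 := by rw [constantCoeff_cx, hG0]; simp
  have hH : ts (fun z => Complex.exp (a * l z)) = rescale ζ (cx (2 * Tab a β - 1)) := by
    ext k
    rw [coeff_ts, coeff_rescale, coeff_cx]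
    rcases Nat.eq_zero_or_pos k with rfl | hk
    · rw [tc_zero, h.2.1, coeff_zero_eq_constantCoeff_apply, hG0]; simp
    · rw [coeff_Hq h ha hβ1 hk, hq k hk]; ring
  have hF : ∀ m, tc (fun z => Complex.exp (l z)) m = tc (fun z => Complex.exp (lg (ζ * z))) m := by
    intro m
    have e1 : tc (fun z => Complex.exp (l z)) m = tc (fun z => Complex.exp (((1 : ℝ) : ℂ) * l z)) m := by
      simp
    have e2 : tc (fun z => Complex.exp (lg z)) m =
        tc (fun z => Complex.exp (((1 : ℝ) : ℂ) * lg z)) m := by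
      simp
    rw [tc_rot ζ (fun z => Complex.exp (lg z)), e1, e2, extremal_coeff hgb ha hβ1 hext 1 m,
      ← coeff_ts, pow_series h ha 1, hH, pw_rescale _ _ h0, coeff_rescale, pw_cx _ hG0, coeff_cx]
  intro z hz
  have h5 := eq_of_tc (F := fun z => Complex.exp (l z)) (G := fun z => Complex.exp (lg (ζ * z)))
    h.1.cexp (rot_branch hgb hζ).1.cexp hF z hz
  rw [h.2.2 z hz, hgb.2.2 _ (rot_mem hζ hz), h5]
  field_simp

/-! ### the exponents below `α` -/

lemma coeff_two_pw {K : Type*} [Field K] [CharZero K] (γ : K) {H : PowerSeries K}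
    (hH : constantCoeff H = 1) :
    coeff 2 (pw γ H) = γ * coeff 2 H + γ * (γ - 1) / 2 * coeff 1 H ^ 2 := by
  have h := congrArg (coeff 2) (isPow_pw γ hH).2
  have hp := constantCoeff_pw γ hH
  have h1 := coeff_one_pw γ hH
  have h20 : antidiagonal 2 = {((0 : ℕ), (2 : ℕ)), (1, 1), (2, 0)} := rfl
  rw [PowerSeries.coeff_C_mul, PowerSeries.coeff_mul, PowerSeries.coeff_mul, h20] at h
  simp only [coeff_D] at h
  rw [Finset.sum_insert (by simp), Finset.sum_insert (by simp), Finset.sum_singleton,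
    Finset.sum_insert (by simp), Finset.sum_insert (by simp), Finset.sum_singleton] at h
  simp only [coeff_zero_eq_constantCoeff_apply, hH, hp, h1] at h
  push_cast at h
  have : (2 : K) * coeff 2 (pw γ H) =
      2 * (γ * coeff 2 H + γ * (γ - 1) / 2 * coeff 1 H ^ 2) := by
    field_simp
    linear_combination h
  exact mul_left_cancel₀ two_ne_zero this

/-- For `b < α` the inequality fails for the second coefficient. -/
theorem counter {a β b : ℝ} (ha : 0 < a) (hβ0 : 0 ≤ β) (hβ1 : β < 1) (hb0 : 0 < b) (hba : b < a) :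
    ∃ f l : ℂ → ℂ, LogBranch f l ∧ (∀ z ∈ Metric.ball (0 : ℂ) 1, β < (bz a f l z).re) ∧
      |coeff 2 (pw (b / a) (2 * Tab a β - 1))| < ‖tc (fun z => Complex.exp (b * l z)) 2‖ := by
  have hb' : 0 < 1 - β := by linarith
  -- the function `p`
  obtain ⟨p, hp⟩ : ∃ p : ℂ → ℂ, p = fun z =>
    ((1 - β : ℝ) : ℂ) * ((1 + z ^ 2) / (1 - z ^ 2)) + ((β : ℝ) : ℂ) := ⟨_, rfl⟩
  have hz2 : ∀ z ∈ Metric.ball (0 : ℂ) 1, z ^ 2 ∈ Metric.ball (0 : ℂ) 1 := by
    intro z hz
    rw [mem_ball_zero_iff] at hz ⊢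
    rw [norm_pow]
    exact pow_lt_one₀ (norm_nonneg _) hz two_ne_zero
  have hhd : DifferentiableOn ℂ (fun z : ℂ => (1 + z) / (1 - z)) (Metric.ball 0 1) := by
    have := half_diff (ζ := 1) norm_one
    simpa using this
  have hsq : DifferentiableOn ℂ (fun z : ℂ => (1 + z ^ 2) / (1 - z ^ 2)) (Metric.ball 0 1) :=
    hhd.comp (f := fun z : ℂ => z ^ 2) (by fun_prop) hz2
  have hpd : DifferentiableOn ℂ p (Metric.ball 0 1) := by
    rw [hp]
    exact (hsq.const_mul _).add_const _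
  have hp0 : p 0 = 1 := by rw [hp]; simp
  have hre : ∀ w ∈ Metric.ball (0 : ℂ) 1, 0 < ((1 + w) / (1 - w)).re := by
    intro w hw
    rw [mem_ball_zero_iff] at hw
    have hn : 0 < Complex.normSq (1 - w) := by
      rw [Complex.normSq_pos]
      intro h
      have : w = 1 := by linear_combination -h
      rw [this, norm_one] at hw
      exact lt_irrefl _ hw
    have h2 : ((1 + w) / (1 - w)).re = (1 - Complex.normSq w) / Complex.normSq (1 - w) := by
      rw [Complex.div_re, ← add_div]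
      congr 1
      simp only [Complex.normSq_apply, Complex.add_re, Complex.sub_re, Complex.one_re,
        Complex.add_im, Complex.sub_im, Complex.one_im]
      ring
    rw [h2]
    apply div_pos _ hn
    have : Complex.normSq w < 1 := by
      rw [Complex.normSq_eq_norm_sq]
      nlinarith [norm_nonneg w]
    linarith
  have hpβ : ∀ z ∈ Metric.ball (0 : ℂ) 1, β < (p z).re := by
    intro z hz
    rw [hp]
    simp only
    rw [Complex.add_re, Complex.re_ofReal_mul, Complex.ofReal_re]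
    have := mul_pos hb' (hre _ (hz2 z hz))
    linarith
  obtain ⟨f, l, hfl, hbz⟩ := exists_fl ha hpd hp0 (fun z hz => by linarith [hpβ z hz])
  refine ⟨f, l, hfl, fun z hz => by rw [bz, hbz z hz]; exact hpβ z hz, ?_⟩
  -- coefficients of `nq`
  have hq : ∀ z ∈ Metric.ball (0 : ℂ) 1, nq a β f l z = (1 + z ^ 2) / (1 - z ^ 2) := by
    intro z hz
    rw [nq, bz, hbz z hz, hp]
    have hb : (1 : ℂ) - β ≠ 0 := by exact_mod_cast hb'.ne'
    push_cast
    field_simp
    ring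
  have hqa : AnalyticAt ℂ (nq a β f l) 0 := anal (nq_diff hfl a β) zero_mem
  have hone : ts (fun _ : ℂ => (1 : ℂ)) = 1 := by
    ext n
    rw [coeff_ts, tc, PowerSeries.coeff_one, iteratedDeriv_const]
    split_ifs with h
    · rw [h]; simp
    · simp
  have hsqs : ts (fun z : ℂ => z ^ 2) = PowerSeries.X * PowerSeries.X := by
    have : (fun z : ℂ => z ^ 2) = fun z => z * z := by funext z; ring
    rw [this, ts_mul ana_id ana_id, ts_id]
  have hsqa : AnalyticAt ℂ (fun z : ℂ => z ^ 2) 0 := by fun_prop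
  have hma : AnalyticAt ℂ (fun z : ℂ => (-1 : ℂ) * z ^ 2) 0 := by fun_prop
  have hca : AnalyticAt ℂ (fun _ : ℂ => (1 : ℂ)) 0 := analyticAt_const
  have h1a : AnalyticAt ℂ (fun z : ℂ => (1 : ℂ) + (-1) * z ^ 2) 0 := by fun_prop
  have e1 : ts (fun z : ℂ => (1 : ℂ) + (-1) * z ^ 2) = 1 - PowerSeries.X * PowerSeries.X := by
    rw [ts_add hca hma, ts_const_mul hsqa, hsqs, hone, map_neg, map_one]; ring
  have e2 : ts (fun z : ℂ => (1 : ℂ) + z ^ 2) = 1 + PowerSeries.X * PowerSeries.X := by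
    rw [ts_add hca hsqa, hsqs, hone]
  have e3 : (1 - PowerSeries.X * PowerSeries.X) * ts (nq a β f l) =
      1 + PowerSeries.X * PowerSeries.X := by
    rw [← e1, ← ts_mul h1a hqa, ← e2]
    apply ts_congr
    filter_upwards [ball_nhds] with z hz
    rw [hq z hz]
    have : (1 : ℂ) - z ^ 2 ≠ 0 := by
      intro h0
      have h1 := hz2 z hz
      rw [mem_ball_zero_iff] at h1
      have : z ^ 2 = 1 := by linear_combination -h0
      rw [this, norm_one] at h1
      exact lt_irrefl _ h1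
    field_simp
    ring
  have hx : ∀ (P : PowerSeries ℂ) (n : ℕ), coeff (n+2) (PowerSeries.X * (PowerSeries.X * P)) =
      coeff n P := by
    intro P n
    rw [show n + 2 = n + 1 + 1 by ring, PowerSeries.coeff_succ_X_mul, PowerSeries.coeff_succ_X_mul]
  have hx1 : ∀ (P : PowerSeries ℂ), coeff 1 (PowerSeries.X * (PowerSeries.X * P)) = 0 := by
    intro P
    rw [show (1 : ℕ) = 0 + 1 by rfl, PowerSeries.coeff_succ_X_mul]; simp
  have e4 : ts (nq a β f l) = 1 + PowerSeries.X * (PowerSeries.X * (1 + ts (nq a β f l))) := by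
    linear_combination e3
  have q1 : tc (nq a β f l) 1 = 0 := by
    have := congrArg (coeff 1) e4
    rw [map_add, hx1, coeff_ts, PowerSeries.coeff_one, if_neg (by norm_num), add_zero] at this
    exact this
  have q2 : tc (nq a β f l) 2 = 2 := by
    have := congrArg (coeff 2) e4
    rw [map_add, show (2 : ℕ) = 0 + 2 by rfl, hx, coeff_ts, PowerSeries.coeff_one,
      if_neg (by norm_num), zero_add, map_add, PowerSeries.coeff_one, if_pos rfl, coeff_ts, tc_zero,
      nq_zero hfl a hβ1] at this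
    rw [this]; norm_num
  -- the two coefficients
  have hG0 := const_Gab a β
  have hH0 : constantCoeff (ts (fun z => Complex.exp (a * l z))) = 1 := by
    rw [constantCoeff_ts, hfl.2.1]; simp
  have hG1 := coeff_Gab a β (k := 1) le_rfl
  have hG2 := coeff_Gab a β (k := 2) (by norm_num)
  have e5 : tc (fun z => Complex.exp (b * l z)) 2 =
      (((b / a) * coeff 2 (2 * Tab a β - 1) : ℝ) : ℂ) := by
    rw [← coeff_ts, pow_series hfl ha b, coeff_two_pw _ hH0, coeff_ts, coeff_ts,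
      coeff_Hq hfl ha hβ1 le_rfl, coeff_Hq hfl ha hβ1 (by norm_num), q1, q2]
    push_cast
    ring
  rw [e5, Complex.norm_real, coeff_two_pw _ hG0, hG1, hG2]
  obtain ⟨δ, hδ⟩ : ∃ δ, δ = b / a := ⟨_, rfl⟩
  have hδ0 : 0 < δ := by rw [hδ]; positivity
  have hδ1 : δ < 1 := by rw [hδ, div_lt_one ha]; exact hba
  rw [← hδ]
  push_cast
  obtain ⟨s, hs⟩ : ∃ s, s = 1 - β := ⟨_, rfl⟩
  have hs0 : 0 < s := by rw [hs]; exact hb'
  have hs1 : s ≤ 1 := by rw [hs]; linarith
  rw [← hs]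
  obtain ⟨x, hx'⟩ : ∃ x, x = s * (a / (2 + a)) := ⟨_, rfl⟩
  obtain ⟨y, hy⟩ : ∃ y, y = s * (a / (1 + a)) := ⟨_, rfl⟩
  rw [← hx', ← hy]
  have hx0 : 0 < x := by rw [hx']; positivity
  have hy0 : 0 < y := by rw [hy]; positivity
  -- `y^2 < 2 x`
  have hxy : y ^ 2 < 2 * x := by
    rw [hx', hy]
    have h1 : (s * (a / (1 + a))) ^ 2 = s * (s * (a / (1 + a)) ^ 2) := by ring
    have h2 : 2 * (s * (a / (2 + a))) = s * (2 * (a / (2 + a))) := by ring
    rw [h1, h2]
    apply mul_lt_mul_of_pos_left _ hs0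
    have h3 : s * (a / (1 + a)) ^ 2 ≤ 1 * (a / (1 + a)) ^ 2 :=
      mul_le_mul_of_nonneg_right hs1 (sq_nonneg _)
    have h4 : (a / (1 + a)) ^ 2 < 2 * (a / (2 + a)) := by
      rw [div_pow, ← mul_div_assoc, div_lt_div_iff₀ (by positivity) (by positivity)]
      nlinarith [mul_pos ha ha]
    linarith
  have e6 : δ * (2 * x) + δ * (δ - 1) / 2 * (2 * y) ^ 2 =
      δ * (2 * x) - δ * ((1 - δ) * (2 * y ^ 2)) := by ring
  have hu : 0 < (1 - δ) * (2 * y ^ 2) := by
    have : 0 < 1 - δ := by linarith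
    positivity
  have hv : (1 - δ) * (2 * y ^ 2) < 2 * (2 * x) := by
    have h1 : (1 - δ) * (2 * y ^ 2) ≤ 1 * (2 * y ^ 2) :=
      mul_le_mul_of_nonneg_right (by linarith) (by positivity)
    linarith
  rw [e6, Real.norm_eq_abs, abs_of_pos (show 0 < δ * (2 * x) by positivity), abs_lt]
  constructor
  · have := mul_lt_mul_of_pos_left hv hδ0
    linarith
  · have := mul_pos hδ0 hu
    linarith

end

end Pool.Agent.KS6_45.BZ
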