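import Pool.Graph.R_pool_sql_team_seeded_3997aac3.Q139.Baz.Main

set_option autoImplicit false

namespace Pool.Agent.KS6_45.BZ
open PowerSeries Finset
open Pool.Agent.Q139.Baz

/-- `T = 1 + (1-β) ∑_{k ≥ 1} α/(k+α) z^k`. -/
noncomputable def Tab (α β : ℝ) : PowerSeries ℝ :=
  mk fun k => if k = 0 then 1 else (1 - β) * (α / (k + α))

lemma coeff_Tab_zero (α β : ℝ) : coeff 0 (Tab α β) = 1 := by rw [Tab, coeff_mk, if_pos rfl]

lemma coeff_Tab (α β : ℝ) {k : ℕ} (hk : 1 ≤ k) :
    coeff k (Tab α β) = (1 - β) * (α / (k + α)) := by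
  rw [Tab, coeff_mk, if_neg (by omega)]

lemma coeff_Gab (α β : ℝ) {k : ℕ} (hk : 1 ≤ k) :
    coeff k (2 * Tab α β - 1) = 2 * ((1 - β) * (α / (k + α))) := by
  have : (2 : PowerSeries ℝ) = C 2 := (map_ofNat C 2).symm
  rw [map_sub, coeff_one, if_neg (by omega), this, coeff_C_mul, coeff_Tab α β hk]
  ring

lemma const_Gab (α β : ℝ) : constantCoeff (2 * Tab α β - 1) = 1 := by
  have hT0 : constantCoeff (Tab α β) = 1 := by
    rw [← coeff_zero_eq_constantCoeff_apply, coeff_Tab_zero]
  rw [map_sub, map_mul, hT0, map_one]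
  have : constantCoeff (2 : PowerSeries ℝ) = 2 := map_ofNat constantCoeff 2
  rw [this]; norm_num

lemma good_ab {α β : ℝ} (h0 : 0 < α) (hβ0 : 0 ≤ β) (hβ1 : β < 1) (h1 : (1 - 2 * β) * α ≤ 1) :
    Good (Tab α β) (1 - (Tab α β)⁻¹) (((1 - X) * (2 * Tab α β - 1))⁻¹) := by
  have hb : 0 < 1 - β := by linarith
  have hT0 : constantCoeff (Tab α β) = 1 := by
    rw [← coeff_zero_eq_constantCoeff_apply, coeff_Tab_zero]
  have hpos : ∀ n, 0 < coeff n (Tab α β) := by
    intro n
    rcases Nat.eq_zero_or_pos n with rfl | hn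
    · rw [coeff_Tab_zero]; norm_num
    · rw [coeff_Tab α β hn]
      positivity
  have hTB : Tab α β * (1 - (1 - (Tab α β)⁻¹)) = 1 := by
    have := PowerSeries.mul_inv_cancel (Tab α β) (by rw [hT0]; exact one_ne_zero)
    linear_combination this
  have hG0 := const_Gab α β
  have hG1 : ∀ n, coeff (n+1) (2 * Tab α β - 1) = 2 * ((1 - β) * (α / ((n+1 : ℕ) + α))) :=
    fun n => coeff_Gab α β (by omega)
  have hG0' : coeff 0 (2 * Tab α β - 1) = 1 := by
    rw [coeff_zero_eq_constantCoeff_apply, hG0]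
  have hne : constantCoeff ((1 - X) * (2 * Tab α β - 1)) ≠ 0 := by
    rw [map_mul, hG0]; simp
  refine ⟨hT0, hpos, hTB, kaluza hT0 hpos hTB ?_, ?_, ?_, ?_⟩
  · intro n k hk
    obtain ⟨m, rfl⟩ := Nat.exists_eq_add_of_le hk
    rw [show k + m + 1 - k = m + 1 by omega, show k + m - k = m by omega]
    have hk0 : (0 : ℝ) ≤ k := Nat.cast_nonneg _
    have hm0 : (0 : ℝ) ≤ m := Nat.cast_nonneg _
    rcases Nat.eq_zero_or_pos m with rfl | hm
    · rw [coeff_Tab_zero, mul_one]
      rcases Nat.eq_zero_or_pos k with rfl | hk1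
      · rw [add_zero, zero_add, coeff_Tab_zero, mul_one]
      · rw [add_zero, coeff_Tab α β (by omega), coeff_Tab α β hk1, coeff_Tab α β (by omega)]
        have e : (1 - β) * (α / (((0 + 1 : ℕ) : ℝ) + α)) * ((1 - β) * (α / (k + α))) =
            (1 - β) * ((1 - β) * α * α / ((1 + α) * (k + α))) := by
          push_cast
          field_simp
        rw [e]
        apply mul_le_mul_of_nonneg_left _ hb.le
        rw [div_le_div_iff₀ (by positivity) (by positivity)]
        push_cast
        have h5 : (1 - β) * α * α * ((k : ℝ) + 1 + α) ≤ 1 * α * α * (k + 1 + α) := by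
          have : 0 ≤ α * α * ((k : ℝ) + 1 + α) := by positivity
          nlinarith
        nlinarith [mul_nonneg h0.le hk0]
    · rw [coeff_Tab α β (by omega), coeff_Tab α β (by omega), coeff_Tab α β (by omega),
        coeff_Tab α β hm]
      have e : ∀ x y : ℝ, (1 - β) * x * ((1 - β) * y) = (1 - β) ^ 2 * (x * y) := by
        intro x y; ring
      rw [e, e]
      apply mul_le_mul_of_nonneg_left _ (sq_nonneg _)
      push_cast
      rw [div_mul_div_comm, div_mul_div_comm]
      apply div_le_div_of_nonneg_left (by positivity) (by positivity)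
      nlinarith
  · have e : (1 - X) * (2 * Tab α β - 1) = 1 - (1 - (1 - X) * (2 * Tab α β - 1)) := by ring
    rw [e]
    apply NN_inv
    · intro n
      cases n with
      | zero =>
        rw [coeff_zero_eq_constantCoeff_apply, map_sub, map_mul, hG0]; simp
      | succ n =>
        rw [map_sub, coeff_one, if_neg (by omega), sub_mul, one_mul, map_sub, coeff_succ_X_mul]
        cases n with
        | zero =>
          rw [hG1, hG0']
          have : (1 - β) * (α / (((0+1 : ℕ) : ℝ) + α)) ≤ 1/2 := by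
            rw [← mul_div_assoc, div_le_div_iff₀ (by positivity) (by norm_num)]
            push_cast
            linarith
          linarith
        | succ n =>
          rw [hG1, hG1]
          have : α / (((n+1+1 : ℕ) : ℝ) + α) ≤ α / (((n+1 : ℕ) : ℝ) + α) := by
            apply div_le_div_of_nonneg_left h0.le (by positivity)
            push_cast; linarith
          have := mul_le_mul_of_nonneg_left this hb.le
          linarith
    · rw [map_sub, map_mul, hG0]; simp
  · have h2 : ((1 - X) * (2 * Tab α β - 1)) * ((1 - X) * (2 * Tab α β - 1))⁻¹ = 1 :=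
      PowerSeries.mul_inv_cancel _ hne
    have h3 := Ks_mul ℝ
    linear_combination Ks ℝ * h2 - ((1 - X) * (2 * Tab α β - 1))⁻¹ * (2 * Tab α β - 1) * h3
  · intro n
    cases n with
    | zero =>
      rw [coeff_zero_eq_constantCoeff_apply, map_mul, constantCoeff_D]; simp
    | succ n =>
      rw [sub_mul, one_mul, map_sub, coeff_succ_X_mul, coeff_D, coeff_D, hG1]
      cases n with
      | zero => simp; positivity
      | succ n =>
        rw [hG1]
        have hn0 : (0 : ℝ) ≤ n := Nat.cast_nonneg _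
        have : ((n+1 : ℕ) : ℝ) * (α / (((n+1 : ℕ) : ℝ) + α)) ≤
            ((n+1+1 : ℕ) : ℝ) * (α / (((n+1+1 : ℕ) : ℝ) + α)) := by
          rw [← mul_div_assoc, ← mul_div_assoc, div_le_div_iff₀ (by positivity) (by positivity)]
          push_cast
          nlinarith
        have := mul_le_mul_of_nonneg_left this hb.le
        nlinarith

/-- the differences `m G_m - (m-1) G_{m-1}` are positive. -/
lemma DG_pos {α β : ℝ} (h0 : 0 < α) (hβ1 : β < 1) (n : ℕ) :
    0 < coeff (n+1) ((1 - X) * D (2 * Tab α β - 1)) := by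
  have hb : 0 < 1 - β := by linarith
  rw [sub_mul, one_mul, map_sub, coeff_succ_X_mul, coeff_D, coeff_D, coeff_Gab α β (by omega)]
  cases n with
  | zero => simp; positivity
  | succ n =>
    rw [coeff_Gab α β (by omega)]
    have hn0 : (0 : ℝ) ≤ n := Nat.cast_nonneg _
    have : ((n+1 : ℕ) : ℝ) * (α / (((n+1 : ℕ) : ℝ) + α)) <
        ((n+1+1 : ℕ) : ℝ) * (α / (((n+1+1 : ℕ) : ℝ) + α)) := by
      rw [← mul_div_assoc, ← mul_div_assoc, div_lt_div_iff₀ (by positivity) (by positivity)]
      push_cast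
      nlinarith
    have := mul_lt_mul_of_pos_left this hb
    nlinarith

end Pool.Agent.KS6_45.BZ
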