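import Pool.Agent.KS6_45.BZ.Good

set_option autoImplicit false

namespace Pool.Agent.KS6_45.BZ
open PowerSeries Finset
open Pool.Agent.Q139.Baz

lemma coeff_one_mul {K : Type*} [Field K] (P Q : PowerSeries K) :
    coeff 1 (P * Q) = coeff 0 P * coeff 1 Q + coeff 1 P * coeff 0 Q := by
  rw [coeff_mul, show antidiagonal 1 = {((0 : ℕ), (1 : ℕ)), (1, 0)} from rfl]
  simp

lemma coeff_one_pw {K : Type*} [Field K] [CharZero K] (γ : K) {H : PowerSeries K}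
    (hH : constantCoeff H = 1) : coeff 1 (pw γ H) = γ * coeff 1 H := by
  have h := congrArg (coeff 1) (isPow_pw γ hH).2
  have hp := constantCoeff_pw γ hH
  rw [coeff_one_mul, coeff_C_mul, coeff_one_mul, coeff_D, coeff_D, coeff_D, coeff_D] at h
  simp only [coeff_zero_eq_constantCoeff_apply, hH, hp] at h
  simpa using h

section
variable {ι : Type*} [Fintype ι]

/-- the first moment -/
noncomputable def mom (μ : ι → ℝ) (ζ : ι → ℂ) : ℂ := ∑ i, (μ i : ℂ) * ζ i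

lemma mom_le {μ : ι → ℝ} {ζ : ι → ℂ} (hA : Atoms μ ζ) : ‖mom μ ζ‖ ≤ 1 := by
  refine (norm_sum_le _ _).trans ?_
  rw [← hA.sum]
  apply Finset.sum_le_sum
  intro i _
  rw [norm_mul, hA.norm, mul_one, Complex.norm_real, Real.norm_of_nonneg (hA.nonneg i)]

lemma coeff_one_Hs (μ : ι → ℝ) (ζ : ι → ℂ) (G : PowerSeries ℝ) :
    coeff 1 (Hs μ ζ G) = mom μ ζ * coeff 1 G := by
  rw [coeff_Hs, mom]; simp

/-- `G_1 ≤ 1`. -/
lemma good_G1 {T B Ka : PowerSeries ℝ} (hg : Good T B Ka) : coeff 1 (2 * T - 1) ≤ 1 := by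
  have h := congrArg (coeff 1) hg.KG
  have h0 := congrArg (coeff 0) hg.KG
  have hG0 := hg.G0
  rw [coeff_one_mul, Ks, coeff_mk] at h
  rw [coeff_zero_eq_constantCoeff_apply, coeff_zero_eq_constantCoeff_apply, map_mul, hG0, mul_one,
    ← coeff_zero_eq_constantCoeff_apply, ← coeff_zero_eq_constantCoeff_apply] at h0
  have hG0' : coeff 0 (2 * T - 1) = 1 := by rw [coeff_zero_eq_constantCoeff_apply, hG0]
  have hKs0 : coeff 0 (Ks ℝ) = 1 := by rw [Ks, coeff_mk]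
  rw [hKs0] at h0
  rw [hG0', h0, mul_one, one_mul] at h
  have := hg.Knn 1
  linarith

/-- the slack in the first coefficient. -/
theorem xbound_slack {T B Ka : PowerSeries ℝ} (hg : Good T B Ka) {μ : ι → ℝ} {ζ : ι → ℂ}
    (hA : Atoms μ ζ) {γ : ℝ} (h0 : 0 < γ) (h1 : γ ≤ 1) :
    ‖coeff 1 (Ks ℂ * (pw (γ : ℂ) (Hs μ ζ (2 * T - 1)) * (pw (γ : ℂ) (cx (2 * T - 1)))⁻¹))‖ +
      γ * coeff 1 (2 * T - 1) * (1 - ‖mom μ ζ‖) ≤ 1 := by
  have hG0 := hg.G0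
  have hG1 := good_G1 hg
  have hG1' : 0 ≤ coeff 1 (2 * T - 1) := by
    have := hg.pw_nn (γ := 1) zero_le_one
    rw [pw_one hG0] at this
    exact this 1
  have hc1 := coeff_one_Hs μ ζ (2 * T - 1)
  obtain ⟨G, hG⟩ : ∃ G, G = 2 * T - 1 := ⟨_, rfl⟩
  rw [← hG] at hG0 hG1 hG1' hc1 ⊢
  have hH0 := Hs0 hA hG0
  obtain ⟨H, hH⟩ : ∃ H, H = Hs μ ζ G := ⟨_, rfl⟩
  rw [← hH] at hH0 hc1 ⊢
  have hcG0 : constantCoeff (cx G) = 1 := by rw [constantCoeff_cx, hG0]; simp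
  have hPG := constantCoeff_pw (γ : ℂ) hcG0
  have hPH := constantCoeff_pw (γ : ℂ) hH0
  have hi : pw (γ : ℂ) (cx G) * (pw (γ : ℂ) (cx G))⁻¹ = 1 :=
    PowerSeries.mul_inv_cancel _ (by rw [hPG]; exact one_ne_zero)
  have hi0 : constantCoeff (pw (γ : ℂ) (cx G))⁻¹ = 1 := by simp [hPG]
  have hi1 : coeff 1 (pw (γ : ℂ) (cx G))⁻¹ = - (γ * coeff 1 G) := by
    have h := congrArg (coeff 1) hi
    rw [coeff_one_mul, coeff_one_pw _ hcG0, coeff_cx, coeff_one, if_neg (by norm_num)] at h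
    simp only [coeff_zero_eq_constantCoeff_apply, hPG, hi0] at h
    linear_combination h
  have e : coeff 1 (Ks ℂ * (pw (γ : ℂ) H * (pw (γ : ℂ) (cx G))⁻¹)) =
      ((1 - γ * coeff 1 G : ℝ) : ℂ) + ((γ * coeff 1 G : ℝ) : ℂ) * mom μ ζ := by
    rw [coeff_one_mul, coeff_one_mul, coeff_one_pw _ hH0, hi1, hc1]
    simp only [coeff_zero_eq_constantCoeff_apply, map_mul, hPH, hi0]
    have hk0 : constantCoeff (Ks ℂ) = 1 := by
      rw [← coeff_zero_eq_constantCoeff_apply, Ks, coeff_mk]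
    have hk1 : coeff 1 (Ks ℂ) = 1 := by rw [Ks, coeff_mk]
    rw [hk0, hk1]
    push_cast
    ring
  have h3 : γ * coeff 1 G ≤ 1 := by nlinarith
  rw [e]
  have h4 : ‖((1 - γ * coeff 1 G : ℝ) : ℂ) + ((γ * coeff 1 G : ℝ) : ℂ) * mom μ ζ‖ ≤
      (1 - γ * coeff 1 G) + γ * coeff 1 G * ‖mom μ ζ‖ := by
    refine (norm_add_le _ _).trans ?_
    rw [norm_mul, Complex.norm_real, Complex.norm_real, Real.norm_of_nonneg (by linarith),
      Real.norm_of_nonneg (by positivity)]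
  linarith

/-- the series `V = (1-z) z G' G^γ`. -/
noncomputable def Vs (T : PowerSeries ℝ) (γ : ℝ) : PowerSeries ℝ :=
  (1 - X) * D (2 * T - 1) * pw γ (2 * T - 1)

lemma Vs_nn {T B Ka : PowerSeries ℝ} (hg : Good T B Ka) {γ : ℝ} (h0 : 0 < γ) : NN (Vs T γ) :=
  hg.DG.mul (hg.pw_nn h0.le)

/-- `|[z^m] H^γ DG|` with the slack. -/
theorem DGbound_slack {T B Ka : PowerSeries ℝ} (hg : Good T B Ka) {μ : ι → ℝ} {ζ : ι → ℂ}
    (hA : Atoms μ ζ) {γ : ℝ} (h0 : 0 < γ) (h1 : γ ≤ 1) (m : ℕ) :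
    ‖coeff (m+1) (pw (γ : ℂ) (Hs μ ζ (2 * T - 1)) * cx (D (2 * T - 1)))‖ +
      γ * coeff 1 (2 * T - 1) * (1 - ‖mom μ ζ‖) * coeff m (Vs T γ) ≤
      coeff (m+1) (pw γ (2 * T - 1) * D (2 * T - 1)) := by
  have hx := xbound hg hA h0 h1
  have hxs := xbound_slack hg hA h0 h1
  have hG0 := hg.G0
  have hVnn := Vs_nn hg h0
  obtain ⟨V, hVd⟩ : ∃ V, V = Vs T γ := ⟨_, rfl⟩
  rw [← hVd] at hVnn ⊢
  rw [Vs] at hVd
  obtain ⟨G, hG⟩ : ∃ G, G = 2 * T - 1 := ⟨_, rfl⟩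
  rw [← hG] at hG0 hVd
  simp only [← hG] at hx hxs ⊢
  have hcG0 : constantCoeff (cx G) = 1 := by rw [constantCoeff_cx, hG0]; simp
  have hp0 : constantCoeff (pw (γ : ℂ) (cx G)) = 1 := constantCoeff_pw _ hcG0
  have hpi : pw (γ : ℂ) (cx G) * (pw (γ : ℂ) (cx G))⁻¹ = 1 :=
    PowerSeries.mul_inv_cancel _ (by rw [hp0]; exact one_ne_zero)
  have hKs1 : ∀ m, coeff m (Ks ℝ) = 1 := fun m => by rw [Ks, coeff_mk]
  have e1 : pw γ G * D G = Ks ℝ * V := by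
    rw [hVd]; linear_combination (-(pw γ G) * D G) * Ks_mul ℝ
  have e2 : pw (γ : ℂ) (Hs μ ζ G) * cx (D G) =
      (Ks ℂ * (pw (γ : ℂ) (Hs μ ζ G) * (pw (γ : ℂ) (cx G))⁻¹)) * cx V := by
    have hcX : cx X = (X : PowerSeries ℂ) := by simp [cx]
    rw [hVd, map_mul, map_mul, map_sub, map_one, hcX, ← pw_cx γ hG0]
    linear_combination (-(pw (γ : ℂ) (Hs μ ζ G)) * cx (D G)) * Ks_mul ℂ -
      (Ks ℂ * pw (γ : ℂ) (Hs μ ζ G) * (1 - X) * cx (D G)) * hpi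
  obtain ⟨Y, hY⟩ : ∃ Y, Y = Ks ℂ * (pw (γ : ℂ) (Hs μ ζ G) * (pw (γ : ℂ) (cx G))⁻¹) := ⟨_, rfl⟩
  simp only [← hY] at hx hxs e2
  rw [e1, e2, coeff_mul, coeff_mul]
  have hm : ((1 : ℕ), m) ∈ antidiagonal (m + 1) := by
    rw [HasAntidiagonal.mem_antidiagonal]; omega
  have h5 : ‖∑ p ∈ antidiagonal (m+1), coeff p.1 Y * coeff p.2 (cx V)‖ ≤
      ∑ p ∈ antidiagonal (m+1), ‖coeff p.1 Y‖ * coeff p.2 V := by
    refine (norm_sum_le _ _).trans (le_of_eq ?_)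
    apply Finset.sum_congr rfl
    intro p _
    rw [norm_mul, coeff_cx, Complex.norm_real, Real.norm_of_nonneg (hVnn _)]
  rw [← Finset.add_sum_erase _ (fun p : ℕ × ℕ => ‖coeff p.1 Y‖ * coeff p.2 V) hm] at h5
  rw [← Finset.add_sum_erase _ (fun p : ℕ × ℕ => coeff p.1 (Ks ℝ) * coeff p.2 V) hm]
  have h6 : ∑ p ∈ (antidiagonal (m+1)).erase ((1 : ℕ), m), ‖coeff p.1 Y‖ * coeff p.2 V ≤
      ∑ p ∈ (antidiagonal (m+1)).erase ((1 : ℕ), m), coeff p.1 (Ks ℝ) * coeff p.2 V := by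
    apply Finset.sum_le_sum
    intro p _
    rw [hKs1]
    exact mul_le_mul_of_nonneg_right (hx _) (hVnn _)
  have h7 : (‖coeff 1 Y‖ + γ * coeff 1 G * (1 - ‖mom μ ζ‖)) * coeff m V ≤ 1 * coeff m V :=
    mul_le_mul_of_nonneg_right hxs (hVnn m)
  simp only [hKs1] at h6 ⊢
  linarith

/-- the stability constant. -/
noncomputable def Kap (T : PowerSeries ℝ) (γ : ℝ) (m : ℕ) : ℝ :=
  if m ≤ 1 then (γ + 1) * coeff 1 (2 * T - 1)
  else (γ + 1) * (γ * coeff 1 (2 * T - 1) * coeff (m - 1) (Vs T γ)) / m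

lemma bound_m_one {T B Ka : PowerSeries ℝ} (hg : Good T B Ka) {μ : ι → ℝ} {ζ : ι → ℂ}
    (hA : Atoms μ ζ) {δ : ℝ} (h0 : 0 < δ) :
    ‖coeff 1 (pw (δ : ℂ) (Hs μ ζ (2 * T - 1)))‖ +
      δ * coeff 1 (2 * T - 1) * (1 - ‖mom μ ζ‖) = coeff 1 (pw δ (2 * T - 1)) := by
  have hG0 := hg.G0
  have hH0 := Hs0 hA hG0
  have hG1' : 0 ≤ coeff 1 (2 * T - 1) := by
    have := hg.pw_nn (γ := 1) zero_le_one
    rw [pw_one hG0] at this
    exact this 1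
  rw [coeff_one_pw _ hH0, coeff_one_pw _ hG0, coeff_one_Hs, norm_mul, norm_mul,
    Complex.norm_real, Complex.norm_real, Real.norm_of_nonneg h0.le, Real.norm_of_nonneg hG1']
  ring

/-- the coefficient bound with slack for exponents in `(1, 2]`. -/
theorem bound_one_slack {T B Ka : PowerSeries ℝ} (hg : Good T B Ka) {μ : ι → ℝ} {ζ : ι → ℂ}
    (hA : Atoms μ ζ) {γ : ℝ} (h0 : 0 < γ) (h1 : γ ≤ 1) {m : ℕ} (hm : 1 ≤ m) :
    ‖coeff m (pw ((γ + 1 : ℝ) : ℂ) (Hs μ ζ (2 * T - 1)))‖ + Kap T γ m * (1 - ‖mom μ ζ‖) ≤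
      coeff m (pw (γ + 1) (2 * T - 1)) := by
  rcases hm.eq_or_lt with rfl | hm2
  · rw [Kap, if_pos le_rfl]
    exact (bound_m_one hg hA (by linarith)).le
  obtain ⟨n, rfl⟩ : ∃ n, m = n + 1 := ⟨m - 1, by omega⟩
  rw [Kap, if_neg (by omega), Nat.add_sub_cancel]
  have hDGb : ∀ (ζ' : ι → ℂ), Atoms μ ζ' → _ := fun ζ' hA' => DGbound_slack hg hA' h0 h1 n
  have hG0 := hg.G0
  have hG1' : 0 ≤ coeff 1 (2 * T - 1) := by
    have := hg.pw_nn (γ := 1) zero_le_one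
    rw [pw_one hG0] at this
    exact this 1
  obtain ⟨v, hv⟩ : ∃ v, v = coeff n (Vs T γ) := ⟨_, rfl⟩
  obtain ⟨G, hG⟩ : ∃ G, G = 2 * T - 1 := ⟨_, rfl⟩
  rw [← hG] at hG0 hG1'
  simp only [← hG, ← hv] at hDGb ⊢
  have hH0 := Hs0 hA hG0
  have hm' : (0 : ℝ) < ((n + 1 : ℕ) : ℝ) := by positivity
  have e1 : ((n + 1 : ℕ) : ℝ) * coeff (n+1) (pw (γ + 1) G) =
      (γ + 1) * coeff (n+1) (pw γ G * D G) := by
    rw [← coeff_D, D_pw_succ _ hG0, coeff_C_mul]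
  have e2 : ((n + 1 : ℕ) : ℂ) * coeff (n+1) (pw ((γ + 1 : ℝ) : ℂ) (Hs μ ζ G)) =
      ((γ + 1 : ℝ) : ℂ) * coeff (n+1) (pw (γ : ℂ) (Hs μ ζ G) * D (Hs μ ζ G)) := by
    rw [← coeff_D]
    push_cast
    rw [D_pw_succ _ hH0, coeff_C_mul]
  have e3 : D (Hs μ ζ G) = ∑ i, C (μ i : ℂ) * rescale (ζ i) (cx (D G)) := by
    ext k
    rw [coeff_D, coeff_Hs, map_sum]
    simp only [coeff_C_mul, coeff_rescale, coeff_cx, coeff_D]
    rw [Finset.sum_mul, Finset.mul_sum]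
    apply Finset.sum_congr rfl
    intro i _
    push_cast; ring
  have e4 : ‖coeff (n+1) (pw (γ : ℂ) (Hs μ ζ G) * D (Hs μ ζ G))‖ +
      γ * coeff 1 G * (1 - ‖mom μ ζ‖) * v ≤ coeff (n+1) (pw γ G * D G) := by
    have h8 : ‖coeff (n+1) (pw (γ : ℂ) (Hs μ ζ G) * D (Hs μ ζ G))‖ ≤
        ∑ i, μ i * (coeff (n+1) (pw γ G * D G) - γ * coeff 1 G * (1 - ‖mom μ ζ‖) * v) := by
      rw [e3, Finset.mul_sum, map_sum]
      refine (norm_sum_le _ _).trans ?_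
      apply Finset.sum_le_sum
      intro i _
      rw [mul_left_comm, coeff_C_mul, norm_mul, Complex.norm_real,
        Real.norm_of_nonneg (hA.nonneg i)]
      apply mul_le_mul_of_nonneg_left _ (hA.nonneg i)
      have hzi : ζ i ≠ 0 := by
        intro h
        have := hA.norm i
        rw [h, norm_zero] at this
        exact zero_ne_one this
      have e5 : pw (γ : ℂ) (Hs μ ζ G) * rescale (ζ i) (cx (D G)) =
          rescale (ζ i) (pw (γ : ℂ) (Hs μ (fun j => (ζ i)⁻¹ * ζ j) G) * cx (D G)) := by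
        rw [map_mul, ← rescale_Hs, ← pw_rescale, rescale_rescale]
        · rw [inv_mul_cancel₀ hzi, rescale_one]; rfl
        · rw [constantCoeff_rescale, hH0]
      have e6 : ‖mom μ (fun j => (ζ i)⁻¹ * ζ j)‖ = ‖mom μ ζ‖ := by
        have : mom μ (fun j => (ζ i)⁻¹ * ζ j) = (ζ i)⁻¹ * mom μ ζ := by
          rw [mom, mom, Finset.mul_sum]
          apply Finset.sum_congr rfl
          intro j _; ring
        rw [this, norm_mul, norm_inv, hA.norm]; simp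
      rw [e5, coeff_rescale, norm_mul, norm_pow, hA.norm, one_pow, one_mul]
      have h9 := hDGb (fun j => (ζ i)⁻¹ * ζ j) ⟨hA.nonneg, hA.sum, by
        intro j
        rw [norm_mul, norm_inv, hA.norm, hA.norm]; norm_num⟩
      rw [e6] at h9
      linarith
    rw [← Finset.sum_mul, hA.sum, one_mul] at h8
    linarith
  have h3 := congrArg norm e2
  rw [norm_mul, norm_mul, Complex.norm_natCast, Complex.norm_real,
    Real.norm_of_nonneg (by linarith)] at h3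
  have h10 : ((n+1 : ℕ) : ℝ) * (‖coeff (n+1) (pw ((γ + 1 : ℝ) : ℂ) (Hs μ ζ G))‖ +
      (γ + 1) * (γ * coeff 1 G * v) / ((n+1 : ℕ) : ℝ) * (1 - ‖mom μ ζ‖)) ≤
      ((n+1 : ℕ) : ℝ) * coeff (n+1) (pw (γ + 1) G) := by
    rw [mul_add, h3, e1]
    have : ((n+1 : ℕ) : ℝ) * ((γ + 1) * (γ * coeff 1 G * v) / ((n+1 : ℕ) : ℝ) *
        (1 - ‖mom μ ζ‖)) = (γ + 1) * (γ * coeff 1 G * (1 - ‖mom μ ζ‖) * v) := by
      field_simp
    rw [this, ← mul_add]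
    exact mul_le_mul_of_nonneg_left e4 (by linarith)
  exact le_of_mul_le_mul_left h10 hm'

/-- the bound with slack for all exponents `γ + 1 + k`. -/
theorem bound_nat_slack {T B Ka : PowerSeries ℝ} (hg : Good T B Ka) {μ : ι → ℝ} {ζ : ι → ℂ}
    (hA : Atoms μ ζ) {γ : ℝ} (h0 : 0 < γ) (h1 : γ ≤ 1) (k : ℕ) {m : ℕ} (hm : 1 ≤ m) :
    ‖coeff m (pw ((γ + 1 + k : ℝ) : ℂ) (Hs μ ζ (2 * T - 1)))‖ + Kap T γ m * (1 - ‖mom μ ζ‖) ≤
      coeff m (pw (γ + 1 + k) (2 * T - 1)) := by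
  induction k with
  | zero =>
    have := bound_one_slack hg hA h0 h1 hm
    simpa using this
  | succ k ih =>
    have hG0 := hg.G0
    have hGnn : NN (2 * T - 1) := by
      have := hg.pw_nn (γ := 1) zero_le_one
      rwa [pw_one hG0] at this
    have hH0 := Hs0 hA hG0
    have e1 : pw (γ + 1 + ((k+1 : ℕ) : ℝ)) (2 * T - 1) =
        pw (γ + 1 + k) (2 * T - 1) * (2 * T - 1) := by
      push_cast
      rw [← add_assoc, pw_add _ 1 hG0, pw_one hG0]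
    have e2 : pw ((γ + 1 + ((k+1 : ℕ) : ℝ) : ℝ) : ℂ) (Hs μ ζ (2 * T - 1)) =
        pw ((γ + 1 + k : ℝ) : ℂ) (Hs μ ζ (2 * T - 1)) * Hs μ ζ (2 * T - 1) := by
      push_cast
      rw [← add_assoc, pw_add _ 1 hH0, pw_one hH0]
    have hb := fun j => bound_nat hg hA h0 h1 k j
    have hmm : (m, (0 : ℕ)) ∈ antidiagonal m := by
      rw [HasAntidiagonal.mem_antidiagonal]
      rfl
    rw [e1, e2, coeff_mul, coeff_mul, ← Finset.add_sum_erase _ _ hmm,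
      ← Finset.add_sum_erase _ (fun p : ℕ × ℕ => coeff p.1 (pw (γ + 1 + k) (2 * T - 1)) *
        coeff p.2 (2 * T - 1)) hmm]
    have h2 := norm_add_le (coeff m (pw ((γ + 1 + k : ℝ) : ℂ) (Hs μ ζ (2 * T - 1))) *
        coeff 0 (Hs μ ζ (2 * T - 1)))
      (∑ p ∈ (antidiagonal m).erase (m, 0), coeff p.1 (pw ((γ + 1 + k : ℝ) : ℂ)
        (Hs μ ζ (2 * T - 1))) * coeff p.2 (Hs μ ζ (2 * T - 1)))
    have h3 : ‖∑ p ∈ (antidiagonal m).erase (m, 0), coeff p.1 (pw ((γ + 1 + k : ℝ) : ℂ)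
        (Hs μ ζ (2 * T - 1))) * coeff p.2 (Hs μ ζ (2 * T - 1))‖ ≤
        ∑ p ∈ (antidiagonal m).erase (m, 0), coeff p.1 (pw (γ + 1 + k) (2 * T - 1)) *
          coeff p.2 (2 * T - 1) := by
      refine (norm_sum_le _ _).trans ?_
      apply Finset.sum_le_sum
      intro p _
      rw [norm_mul]
      exact mul_le_mul (hb _) (norm_coeff_Hs hA hGnn _) (norm_nonneg _)
        ((norm_nonneg _).trans (hb _))
    have hH00 : coeff 0 (Hs μ ζ (2 * T - 1)) = 1 := by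
      rw [coeff_zero_eq_constantCoeff_apply, hH0]
    have hG00 : coeff 0 (2 * T - 1) = 1 := by
      rw [coeff_zero_eq_constantCoeff_apply, hG0]
    simp only [hH00, hG00, mul_one] at h2 ⊢
    linarith

lemma exp_split {δ : ℝ} (h1 : 1 < δ) : ∃ (k : ℕ) (γ : ℝ), 0 < γ ∧ γ ≤ 1 ∧ δ = γ + 1 + k := by
  have h2 : 0 < δ - 1 := by linarith
  have h3 : 0 < ⌈δ - 1⌉₊ := Nat.ceil_pos.2 h2
  refine ⟨⌈δ - 1⌉₊ - 1, δ - 1 - ((⌈δ - 1⌉₊ - 1 : ℕ) : ℝ), ?_, ?_, by ring⟩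
  · have h4 : (⌈δ - 1⌉₊ : ℝ) < δ - 1 + 1 := Nat.ceil_lt_add_one h2.le
    rw [Nat.cast_sub h3]; push_cast; linarith
  · have h4 := Nat.le_ceil (δ - 1)
    rw [Nat.cast_sub h3]; push_cast; linarith

end

lemma Kap_pos {α β : ℝ} (h0 : 0 < α) (hβ0 : 0 ≤ β) (hβ1 : β < 1) (h1 : (1 - 2 * β) * α ≤ 1)
    {γ : ℝ} (hγ : 0 < γ) (m : ℕ) : 0 < Kap (Tab α β) γ m := by
  have hg := good_ab h0 hβ0 hβ1 h1
  have hb : 0 < 1 - β := by linarith
  have hG1 : 0 < coeff 1 (2 * Tab α β - 1) := by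
    rw [coeff_Gab α β le_rfl]
    positivity
  rw [Kap]
  split_ifs with h
  · positivity
  · have hm0 : (0 : ℝ) < m := by
      have : 0 < m := by omega
      exact_mod_cast this
    have hV : 0 < coeff (m - 1) (Vs (Tab α β) γ) := by
      obtain ⟨n, hn⟩ : ∃ n, m - 1 = n + 1 := ⟨m - 2, by omega⟩
      rw [hn, Vs, coeff_mul]
      have hmem : (n + 1, (0 : ℕ)) ∈ antidiagonal (n + 1) := by
        rw [HasAntidiagonal.mem_antidiagonal]; rfl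
      have hle := Finset.single_le_sum (f := fun p : ℕ × ℕ =>
        coeff p.1 ((1 - X) * D (2 * Tab α β - 1)) * coeff p.2 (pw γ (2 * Tab α β - 1)))
        (fun p _ => mul_nonneg (hg.DG _) (hg.pw_nn hγ.le _)) hmem
      refine lt_of_lt_of_le ?_ hle
      simp only
      rw [coeff_zero_eq_constantCoeff_apply, constantCoeff_pw γ (const_Gab α β), mul_one]
      exact DG_pos h0 hβ1 n
    positivity

end Pool.Agent.KS6_45.BZ
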